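import Pool.Agent.MP_a0341c_al.Mg.H44_Gen
import Pool.Agent.MP_a0341c_al.H44.Defs

namespace Pool.Agent.Results.MP_a0341c_al.LargeRank

open Pool.Agent.MP_a0341c_al

/-- In each degree `d = 2 k + 1 ≥ 3`, Hitchin's conjecture holds for all classical Lie algebras
of large enough rank. -/
theorem result :
    ∀ k : ℕ, 0 < k → ∃ N : ℕ,
      ∀ (L : Type) [LieRing L] [LieAlgebra ℂ L] [FiniteDimensional ℂ L],
      (∃ n : ℕ, N ≤ n ∧ (Nonempty (L ≃ₗ⁅ℂ⁆ LieAlgebra.SpecialLinear.sl (Fin n) ℂ) ∨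
        Nonempty (L ≃ₗ⁅ℂ⁆ LieAlgebra.Orthogonal.so (Fin n) ℂ) ∨
        Nonempty (L ≃ₗ⁅ℂ⁆ LieAlgebra.Symplectic.sp (Fin n) ℂ))) →
      ∀ (h e f : L), IsSl2Triple h e f →
      (∀ y : L, Module.finrank ℂ (LinearMap.ker (LieAlgebra.ad ℂ L e)) ≤
          Module.finrank ℂ (LinearMap.ker (LieAlgebra.ad ℂ L y))) →
      ∀ (F : MultilinearMap ℂ (fun _ : Option (Fin k) => L) ℂ),
        (∀ (σ : Equiv.Perm (Option (Fin k))) (x : Option (Fin k) → L), F (x ∘ σ) = F x) →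
        (∀ (y : L) (x : Option (Fin k) → L),
            ∑ i : Option (Fin k), F (Function.update x i ⁅y, x i⁆) = 0) →
        (∃ x : Option (Fin k × Bool) → L, H44.cartanForm F x ≠ 0) →
        ∃ V : Submodule ℂ L,
          Module.finrank ℂ V = 2 * k + 1 ∧
          (∀ v ∈ V, ⁅e, v⁆ ∈ V ∧ ⁅h, v⁆ ∈ V ∧ ⁅f, v⁆ ∈ V) ∧
          (∀ W : Submodule ℂ L, W ≤ V →
            (∀ w ∈ W, ⁅e, w⁆ ∈ W ∧ ⁅h, w⁆ ∈ W ∧ ⁅f, w⁆ ∈ W) → W = ⊥ ∨ W = V) ∧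
          ∃ x : Option (Fin k × Bool) → L, (∀ a, x a ∈ V) ∧ H44.cartanForm F x ≠ 0 := by
  intro k hk
  obtain ⟨N, hN⟩ := H44.PP_large k
  refine ⟨N + 1, ?_⟩
  intro L _ _ _ hL h e f t hreg F hF hF' hx
  refine finish2 (t := t) ?_ F hF hF' hx
  obtain ⟨n, hn, ⟨⟨φ⟩⟩ | ⟨⟨φ⟩⟩ | ⟨⟨φ⟩⟩⟩ := hL
  · exact concl_sl3 t φ hreg hk.ne' fun a _ _ _ => hN a (by omega)
  · exact concl_so3 t φ hreg hk.ne' fun a _ _ _ => hN a (by omega)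
  · exact concl_sp3 t φ hreg hk.ne' fun a _ _ _ => hN a (by omega)

end Pool.Agent.Results.MP_a0341c_al.LargeRank
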