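import Pool.Agent.MP_a0341c_al.Mg.Main

namespace Pool.Agent.Results.MP_a0341c_al.PrimeDegree

open Pool.Agent.MP_a0341c_al

/-- Hitchin's conjecture for the classical Lie algebras `sl n`, `so n`, `sp (2 n)` in every prime
degree `d = 2 k + 1`. -/
theorem result :
    ∀ (L : Type) [LieRing L] [LieAlgebra ℂ L] [FiniteDimensional ℂ L],
      (∃ n : ℕ, Nonempty (L ≃ₗ⁅ℂ⁆ LieAlgebra.SpecialLinear.sl (Fin n) ℂ) ∨
        Nonempty (L ≃ₗ⁅ℂ⁆ LieAlgebra.Orthogonal.so (Fin n) ℂ) ∨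
        Nonempty (L ≃ₗ⁅ℂ⁆ LieAlgebra.Symplectic.sp (Fin n) ℂ)) →
      ∀ (h e f : L), IsSl2Triple h e f →
      (∀ y : L, Module.finrank ℂ (LinearMap.ker (LieAlgebra.ad ℂ L e)) ≤
          Module.finrank ℂ (LinearMap.ker (LieAlgebra.ad ℂ L y))) →
      ∀ (k : ℕ), Nat.Prime (2 * k + 1) →
      ∀ (F : MultilinearMap ℂ (fun _ : Option (Fin k) => L) ℂ),
        (∀ (σ : Equiv.Perm (Option (Fin k))) (x : Option (Fin k) → L), F (x ∘ σ) = F x) →
        (∀ (y : L) (x : Option (Fin k) → L),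
            ∑ i : Option (Fin k), F (Function.update x i ⁅y, x i⁆) = 0) →
        (∃ x : Option (Fin k × Bool) → L,
            (∑ σ : Equiv.Perm (Option (Fin k × Bool)),
              (((Equiv.Perm.sign σ : ℤ) : ℂ) *
                F (fun j : Option (Fin k) => Option.elim j (x (σ none))
                  (fun i => ⁅x (σ (some (i, false))), x (σ (some (i, true)))⁆)))) ≠ 0) →
        ∃ V : Submodule ℂ L,
          Module.finrank ℂ V = 2 * k + 1 ∧
          (∀ v ∈ V, ⁅e, v⁆ ∈ V ∧ ⁅h, v⁆ ∈ V ∧ ⁅f, v⁆ ∈ V) ∧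
          (∀ W : Submodule ℂ L, W ≤ V →
            (∀ w ∈ W, ⁅e, w⁆ ∈ W ∧ ⁅h, w⁆ ∈ W ∧ ⁅f, w⁆ ∈ W) → W = ⊥ ∨ W = V) ∧
          ∃ x : Option (Fin k × Bool) → L, (∀ a, x a ∈ V) ∧
            (∑ σ : Equiv.Perm (Option (Fin k × Bool)),
              (((Equiv.Perm.sign σ : ℤ) : ℂ) *
                F (fun j : Option (Fin k) => Option.elim j (x (σ none))
                  (fun i => ⁅x (σ (some (i, false))), x (σ (some (i, true)))⁆)))) ≠ 0 := by
  intro L _ _ _ hL h e f t hreg k hk F hF hF' hx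
  obtain ⟨x, hx⟩ := hx
  rw [cartan_eq] at hx
  obtain ⟨u, P, hu⟩ := concl_classical t hL hreg k hk F hF hF' ⟨_, hx⟩
  obtain ⟨V, h1, h2, h3, h4⟩ := irred_span P
  refine ⟨V, h1, h2, h3, xs f u k ∘ en k, fun a => h4 _, ?_⟩
  rw [cartan_eq]
  simpa [Function.comp_def] using hu

end Pool.Agent.Results.MP_a0341c_al.PrimeDegree
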