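import Pool.Agent.MP_a0341c_al.Mg.H44_Gen

namespace Pool.Agent.Results.MP_a0341c_al.TopDegree

open Pool.Agent.MP_a0341c_al

/-- Hitchin's conjecture in the top degree `d = 2 k + 1` for `sl (k + 1)` and for `sp (2 m)` with
`2 m = k + 1`. -/
theorem result :
    ∀ (L : Type) [LieRing L] [LieAlgebra ℂ L] [FiniteDimensional ℂ L] (k : ℕ),
      (Nonempty (L ≃ₗ⁅ℂ⁆ LieAlgebra.SpecialLinear.sl (Fin (k + 1)) ℂ) ∨
        ∃ m : ℕ, 2 * m = k + 1 ∧ Nonempty (L ≃ₗ⁅ℂ⁆ LieAlgebra.Symplectic.sp (Fin m) ℂ)) →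
      ∀ (h e f : L), IsSl2Triple h e f →
      (∀ y : L, Module.finrank ℂ (LinearMap.ker (LieAlgebra.ad ℂ L e)) ≤
          Module.finrank ℂ (LinearMap.ker (LieAlgebra.ad ℂ L y))) →
      ∀ (F : MultilinearMap ℂ (fun _ : Option (Fin k) => L) ℂ),
        (∀ (σ : Equiv.Perm (Option (Fin k))) (x : Option (Fin k) → L), F (x ∘ σ) = F x) →
        (∀ (y : L) (x : Option (Fin k) → L),
            ∑ i : Option (Fin k), F (Function.update x i ⁅y, x i⁆) = 0) →
        (∃ x : Option (Fin k × Bool) → L,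
            (∑ σ : Equiv.Perm (Option (Fin k × Bool)),
              (((Equiv.Perm.sign σ : ℤ) : ℂ) *
                F (fun j : Option (Fin k) => Option.elim j (x (σ none))
                  (fun i => ⁅x (σ (some (i, false))), x (σ (some (i, true)))⁆)))) ≠ 0) →
        ∃ V : Submodule ℂ L,
          Module.finrank ℂ V = 2 * k + 1 ∧
          (∀ v ∈ V, ⁅e, v⁆ ∈ V ∧ ⁅h, v⁆ ∈ V ∧ ⁅f, v⁆ ∈ V) ∧
          (∀ W : Submodule ℂ L, W ≤ V →
            (∀ w ∈ W, ⁅e, w⁆ ∈ W ∧ ⁅h, w⁆ ∈ W ∧ ⁅f, w⁆ ∈ W) → W = ⊥ ∨ W = V) ∧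
          ∃ x : Option (Fin k × Bool) → L, (∀ a, x a ∈ V) ∧
            (∑ σ : Equiv.Perm (Option (Fin k × Bool)),
              (((Equiv.Perm.sign σ : ℤ) : ℂ) *
                F (fun j : Option (Fin k) => Option.elim j (x (σ none))
                  (fun i => ⁅x (σ (some (i, false))), x (σ (some (i, true)))⁆)))) ≠ 0 := by
  intro L _ _ _ k hL h e f t hreg F hF hF' hx
  exact finish2 (concl_top t hL hreg) F hF hF' hx

end Pool.Agent.Results.MP_a0341c_al.TopDegree
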